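import Pool.Agent.RLW.Final

/-!
# The sharp reverse Loomis-Whitney inequality for the intrinsic volume `V_(n-2)`

Definitions (`Pool/Agent/RLW/Final.lean`): `Steiner K W` is Steiner's formula, `V K j` are the intrinsic
volumes of `K`, `proj i` is the projection along `e_i` (the coordinate `i` is deleted),
`cross a r = conv {a + r e_i, a - r e_i}`, `c n = 4 n / π ^ 2 * arcsin (1 / √n) ^ 2`.
-/

set_option autoImplicit false

open MeasureTheory Metric Set
open scoped BigOperators Pointwise

namespace Pool.Agent.Results.MP_f7beb7_gt.CodimensionTwo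

open RLW.Final

/-- Dimension `n = m + 2`, `m ≥ 1`: the inequality `V_m(K)² ≥ c Σ V_m(K | e_i^⊥)²` for all compact convex
sets, with equality for all translates of regular coordinate cross-polytopes. -/
theorem result :
    (∀ (n : ℕ) (K : Set (EuclideanSpace ℝ (Fin n))), IsCompact K → Convex ℝ K →
      Steiner K (V K)) ∧
    ∀ m : ℕ, 1 ≤ m → 0 < c (m + 2) ∧
      (∀ K : Set (EuclideanSpace ℝ (Fin (m + 2))), IsCompact K → Convex ℝ K →
        c (m + 2) * ∑ i, V (proj i '' K) m ^ 2 ≤ V K m ^ 2) ∧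
      ∀ (a : EuclideanSpace ℝ (Fin (m + 2))) (r : ℝ), 0 < r →
        V (cross a r) m ^ 2 = c (m + 2) * ∑ i, V (proj i '' cross a r) m ^ 2 :=
  ⟨fun _ K h1 h2 => steiner K h1 h2, fun m _ => ⟨c_pos (m + 1),
    fun K h1 h2 => main_ineq K h1 h2, fun a _ hr => main_eq a hr⟩⟩

end Pool.Agent.Results.MP_f7beb7_gt.CodimensionTwo
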