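import Pool.Agent.RLW.Final3

/-!
# The case `n = 3`, `m = 1` of the reverse Loomis-Whitney inequality with the equality cases

Definitions (`Pool/Agent/RLW/Final.lean`): `Steiner K W` is Steiner's formula, `V K j` are the intrinsic
volumes of `K`, `proj i` is the projection along `e_i` (the coordinate `i` is deleted), `sect i K` is the
section by `e_i^⊥`, `cross a r = conv {a + r e_i, a - r e_i}`, `c 3 = 12 / π ^ 2 * arcsin (1 / √3) ^ 2`.
-/

set_option autoImplicit false

open MeasureTheory Metric Set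
open scoped BigOperators Pointwise

namespace Pool.Agent.Results.MP_f7beb7_gt.DimensionThree

open RLW.Final

/-- Q1 for `n = 3`, `m = 1`: the chain of inequalities for all compact convex sets of `ℝ ^ 3` and both
equality characterisations for those with interior points. -/
theorem result :
    (∀ (n : ℕ) (K : Set (EuclideanSpace ℝ (Fin n))), IsCompact K → Convex ℝ K →
      Steiner K (V K)) ∧
    0 < c 3 ∧
    (∀ K : Set (EuclideanSpace ℝ (Fin 3)), IsCompact K → Convex ℝ K →
      c 3 * ∑ i, V (proj i '' K) 1 ^ 2 ≤ V K 1 ^ 2 ∧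
      c 3 * ∑ i, V (sect i K) 1 ^ 2 ≤ c 3 * ∑ i, V (proj i '' K) 1 ^ 2) ∧
    ∀ K : Set (EuclideanSpace ℝ (Fin 3)), IsCompact K → Convex ℝ K → (interior K).Nonempty →
      (V K 1 ^ 2 = c 3 * ∑ i, V (proj i '' K) 1 ^ 2 ↔
        ∃ (a : EuclideanSpace ℝ (Fin 3)) (r : ℝ), 0 < r ∧ K = cross a r) ∧
      (V K 1 ^ 2 = c 3 * ∑ i, V (sect i K) 1 ^ 2 ↔ ∃ r : ℝ, 0 < r ∧ K = cross 0 r) :=
  ⟨fun _ K h1 h2 => steiner K h1 h2, c_pos 2, fun K h1 h2 => chain K h1 h2,
    fun K h1 h2 h3 => equality K h1 h2 h3⟩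

end Pool.Agent.Results.MP_f7beb7_gt.DimensionThree
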